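import Pool.Agent.H23CT.Count

/-!
# Chow-Künneth decompositions in a category of correspondences
-/

set_option autoImplicit false
set_option linter.unusedSectionVars false

open CategoryTheory MonoidalCategory Module
open Pool.Agent.Y112.SR Pool.Agent.Y112.KD Pool.Agent.N64.AF Pool.Agent.H23NC Pool.Agent.H23OB
open Pool.Agent.H23CT

namespace Pool.Agent.H23CK

universe v u w t

section

variable {C : Type u} [Category.{v} C] [Preadditive C] [MonoidalCategory C]
  [SymmetricCategory C] [Linear ℚ C] {K : Type w} [Field K] {R : SuperRealisation C K}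

/-- The known properties of the products: the dimension, the degrees of the products of
correspondences, and the Künneth formula for the cohomology. -/
structure Kunneth (G : Cycles R) (dim : C → ℕ) : Prop where
  comp : ∀ (X Y Z : C) (c d : ℤ) (f : X ⟶ Y) (g : Y ⟶ Z), f ∈ G.deg X Y c → g ∈ G.deg Y Z d →
    f ≫ g ∈ G.deg X Z (c + d)
  one : ∀ X : C, 𝟙 X ∈ G.deg X X 0
  dim_tensor : ∀ X Y : C, dim (X ⊗ Y) = dim X + dim Y
  deg_tensor : ∀ (X Y X' Y' : C) (c d : ℤ) (f : X ⟶ Y) (g : X' ⟶ Y'), f ∈ G.deg X Y c →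
    g ∈ G.deg X' Y' d → (f ⊗ₘ g) ∈ G.deg (X ⊗ X') (Y ⊗ Y') (c + d)
  coh_tensor : ∀ (X Y : C) (n : ℤ), G.coh (X ⊗ Y) n ≤ Submodule.span K
    {c | ∃ (i j : ℤ) (a : R.H.obj X) (b : R.H.obj Y), i + j = n ∧ a ∈ G.coh X i ∧
      b ∈ G.coh Y j ∧ c = (Functor.LaxMonoidal.μ R.H X Y).hom (a ⊗ₜ[K] b)}

/-- `π 0, ..., π (2d)` is a Chow-Künneth decomposition of the variety `X` of dimension `d`: these are
orthogonal idempotent correspondences of degree zero with sum `1`, and `π i` acts as the identity on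
`H^i(X)` and as zero on `H^j(X)` for `j ≠ i`. -/
structure IsCK (G : Cycles R) (dim : C → ℕ) (X : C) (π : ℕ → (X ⟶ X)) : Prop where
  deg : ∀ i, π i ∈ G.deg X X 0
  idem : ∀ i, π i ≫ π i = π i
  orth : ∀ i j, i ≠ j → π i ≫ π j = 0
  zero : ∀ i, 2 * dim X < i → π i = 0
  sum : ∑ i ∈ Finset.range (2 * dim X + 1), π i = 𝟙 X
  id : ∀ (i : ℕ) (a : R.H.obj X), a ∈ G.coh X i → Cycles.act (π i) a = a
  kill : ∀ (i : ℕ) (j : ℤ) (a : R.H.obj X), j ≠ i → a ∈ G.coh X j → Cycles.act (π i) a = 0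

/-- The correspondence `π_l + ... + π_0` (zero if `l < 0`). -/
def psum {X : C} (π : ℕ → (X ⟶ X)) (l : ℤ) : X ⟶ X := ∑ i ∈ Finset.range (l + 1).toNat, π i

/-- The space `F^k CH^i(X)` of the decomposition `π`: the image of `CH^i(X)` under
`π_(2i-k) + ... + π_0`. -/
def ckFil (G : Cycles R) {X : C} (π : ℕ → (X ⟶ X)) (i : ℕ) (k : ℤ) :
    Submodule ℚ (𝟙_ C ⟶ X) :=
  Submodule.map (Linear.rightComp ℚ (𝟙_ C) (psum π (2 * i - k))) (G.deg (𝟙_ C) X i)

/-- `F^k CH^i(X)` is the same for all Chow-Künneth decompositions of `X`. -/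
def Indep (G : Cycles R) (dim : C → ℕ) (X : C) (i : ℕ) (k : ℤ) : Prop :=
  ∀ π π' : ℕ → (X ⟶ X), IsCK G dim X π → IsCK G dim X π' → ckFil G π i k = ckFil G π' i k

/-- The discrepancy of `X` in the codimension `i` and the level `k`: the space generated by the
components `x - (π'_(2i-k) + ... + π'_0) x` of the elements `x` of `F^k CH^i(X)`, formed with `π`, for
all pairs `π`, `π'` of Chow-Künneth decompositions of `X`. -/
def disc (G : Cycles R) (dim : C → ℕ) (X : C) (i : ℕ) (k : ℤ) : Submodule ℚ (𝟙_ C ⟶ X) :=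
  Submodule.span ℚ {y | ∃ (π π' : ℕ → (X ⟶ X)) (x : 𝟙_ C ⟶ X), IsCK G dim X π ∧
    IsCK G dim X π' ∧ x ∈ ckFil G π i k ∧ y = x - x ≫ psum π' (2 * i - k)}

/-- A curve has a Chow-Künneth decomposition, given by a point `o` of it, such that the differences of
points are in the component of degree one, and `o` is in the component of degree two. -/
structure CurveCK (G : Cycles R) (dim : C → ℕ) (D : Curve C) : Prop where
  dec : ∃ ρ : ℕ → (D.E ⟶ D.E), IsCK G dim D.E ρ ∧
    (∀ p ∈ D.pts, ∀ q ∈ D.pts, (p - q) ≫ ρ 1 = p - q) ∧ ∃ o ∈ D.pts, o ≫ ρ 2 = o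

end

end Pool.Agent.H23CK
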