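import Pool.Agent.H23CK.Main
import Pool.Agent.H23CT.Thin

/-!
# Independence of the Chow-Künneth filtrations up to countable sets
-/

set_option autoImplicit false
set_option linter.unusedSectionVars false

open CategoryTheory MonoidalCategory Module Filter
open Pool.Agent.Y112.SR Pool.Agent.Y112.KD Pool.Agent.N64.AF Pool.Agent.H23NC Pool.Agent.H23OB
open Pool.Agent.H23CT

namespace Pool.Agent.H23CK

universe v u w t

variable {C : Type u} [Category.{v} C] [Preadditive C] [MonoidalCategory C]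
  [MonoidalPreadditive C] [SymmetricCategory C] [Linear ℚ C] [MonoidalLinear ℚ C]
  {K : Type w} [Field K] [Algebra ℚ K] {R : SuperRealisation C K} {G : Cycles R} {dim : C → ℕ}
  {ι : Type t} {D : ι → Curve C}

/-- The classes in the discrepancy of `X` in the codimension `j` and the level `j - r`. -/
def InDisc (G : Cycles R) (dim : C → ℕ) (r : ℤ) (X : C) (j : ℕ) (x : 𝟙_ C ⟶ X) : Prop :=
  x ∈ disc G dim X j (j - r)

lemma closed_inDisc (hG : Kunneth G dim) {D : Curve C} (hD : D.Laws G) (hK : CurveCK G dim D)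
    (r : ℤ) : D.Closed (InDisc G dim r) := by
  intro X j x hx p hp q hq
  obtain ⟨ρ, hρ, h1, _⟩ := hK.dec
  have h2 := disc_times hG hρ (h1 p hp q hq) (b := 1) (s := p - q) (X := X) (by
    rw [times_sub]
    exact Submodule.sub_mem _ (hD.pt_deg X p hp) (hD.pt_deg X q hq)) hx
  rw [times_sub] at h2
  unfold InDisc
  have h3 : (((j + 1 : ℕ) : ℤ) - r) = (j - r) + 2 - (1 : ℕ) := by push_cast; ring
  rw [h3]
  exact h2

/-- The product with a point of a curve. -/
lemma exists_point (hG : Kunneth G dim) {D : Curve C} (hD : D.Laws G) (hK : CurveCK G dim D)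
    {X : C} {i : ℕ} {k : ℤ} {x : 𝟙_ C ⟶ X} (hx : x ∈ disc G dim X i k) (hx0 : x ≠ 0) :
    ∃ (Y : C) (y : 𝟙_ C ⟶ Y), y ∈ disc G dim Y (i + 1) k ∧ y ≠ 0 := by
  obtain ⟨ρ, hρ, _, o, ho, h1⟩ := hK.dec
  refine ⟨X ⊗ D.E, x ≫ times X o, ?_, ?_⟩
  · have h2 := disc_times hG hρ h1 (hD.pt_deg X o ho) hx
    have h3 : k + 2 - (2 : ℕ) = k := by push_cast; ring
    rwa [h3] at h2
  · intro h0
    apply hx0
    have h2 : times X o ≫ X ◁ D.trans D.fund ≫ (ρ_ X).hom = 𝟙 X := by
      unfold times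
      rw [Category.assoc, ← whiskerLeft_comp_assoc, hD.pt_fund o ho]
      simp
    have h3 := congrArg (fun y => y ≫ X ◁ D.trans D.fund ≫ (ρ_ X).hom) h0
    simp only [Category.assoc, h2, Category.comp_id, Limits.zero_comp] at h3
    exact h3

lemma exists_points (hG : Kunneth G dim) {D : Curve C} (hD : D.Laws G) (hK : CurveCK G dim D)
    {X : C} {i : ℕ} {k : ℤ} {x : 𝟙_ C ⟶ X} (hx : x ∈ disc G dim X i k) (hx0 : x ≠ 0) (n : ℕ) :
    ∃ (Y : C) (y : 𝟙_ C ⟶ Y), y ∈ disc G dim Y (i + n) k ∧ y ≠ 0 := by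
  induction n with
  | zero => exact ⟨X, x, hx, hx0⟩
  | succ n ih =>
    obtain ⟨Y, y, h1, h2⟩ := ih
    exact exists_point hG hD hK h1 h2

/-- The vanishing of the discrepancy for `i - k = r` implies its vanishing for `i - k ≤ r`. -/
lemma indep_of (hG : Kunneth G dim) (hD : ∀ i, (D i).Laws G) (hK : ∀ i, CurveCK G dim (D i))
    (hS : Separated D) {r : ℤ} (h : ∀ X j x, InDisc G dim r X j x → x = 0) (X : C) (i : ℕ) (k : ℤ)
    (hik : (i : ℤ) - k ≤ r) : Indep G dim X i k := by
  rw [indep_iff hG, Submodule.eq_bot_iff]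
  intro x hx
  by_contra hx0
  obtain ⟨l, _⟩ := exists_prod_ne_zero hD hS hx0
  obtain ⟨n, hn⟩ := Int.eq_ofNat_of_zero_le (sub_nonneg.2 hik)
  obtain ⟨Y, y, h1, h2⟩ := exists_points hG (hD l) (hK l) hx hx0 n
  apply h2
  apply h Y (i + n) y
  unfold InDisc
  have h3 : (((i + n : ℕ) : ℤ) - r) = k := by push_cast; omega
  rwa [h3]

lemma inDisc_eq_zero (hG : Kunneth G dim) {r : ℤ}
    (h : ∀ X (i : ℕ) (k : ℤ), (i : ℤ) - k ≤ r → Indep G dim X i k) {X : C} {j : ℕ}
    {x : 𝟙_ C ⟶ X} (hx : InDisc G dim r X j x) : x = 0 := by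
  have h1 := (indep_iff hG X j (j - r)).1 (h X j (j - r) (by omega))
  unfold InDisc at hx
  rwa [h1, Submodule.mem_bot] at hx

/-- **One curve suffices.** -/
theorem indep_iff_imgs (hG : Kunneth G dim) (hD : ∀ i, (D i).Laws G)
    (hK : ∀ i, CurveCK G dim (D i)) (hS : Separated D) (r : ℤ) (s : Finset ι) :
    (∀ X (i : ℕ) (k : ℤ), (i : ℤ) - k ≤ r → Indep G dim X i k) ↔
      ∀ (X : C) (j : ℕ), ∀ x ∈ disc G dim X j (j - r), (∀ i ∈ s, x ∈ (D i).img X) → x = 0 := by
  constructor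
  · exact fun h X j x hx _ => inDisc_eq_zero hG h hx
  · intro h
    exact indep_of hG hD hK hS (Curve.eq_zero_of_imgs hD
      (fun i => closed_inDisc hG (hD i) (hK i) r) s fun X j x hx hxs => h X j x hx hxs)

/-- **Rigidity suffices.** -/
theorem indep_iff_rigid (hG : Kunneth G dim) (hD : ∀ i, (D i).Laws G)
    (hK : ∀ i, CurveCK G dim (D i)) (hS : Separated D) (r : ℤ) :
    (∀ X (i : ℕ) (k : ℤ), (i : ℤ) - k ≤ r → Indep G dim X i k) ↔
      ∃ᶠ j : ℕ in atTop, Rigid D (InDisc G dim r) j := by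
  constructor
  · intro h
    refine Filter.Frequently.of_forall fun j i X f hf p hp q hq => ?_
    have h1 := inDisc_eq_zero hG h (hf p hp q hq)
    rw [Preadditive.sub_comp] at h1
    exact sub_eq_zero.1 h1
  · intro h
    exact indep_of hG hD hK hS
      (eq_zero_of_rigid hD hS (fun i => closed_inDisc hG (hD i) (hK i) r) h)

/-- **Countability suffices.** -/
theorem indep_iff_countable (hG : Kunneth G dim) (hD : ∀ i, (D i).Laws G)
    (hK : ∀ i, CurveCK G dim (D i)) (hB : ∀ i, (D i).Baire) (hS : Separated D) (r : ℤ) :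
    (∀ X (i : ℕ) (k : ℤ), (i : ℤ) - k ≤ r → Indep G dim X i k) ↔
      ∃ᶠ j : ℕ in atTop, ∀ X : C, (disc G dim X j (j - r) : Set (𝟙_ C ⟶ X)).Countable := by
  constructor
  · intro h
    refine Filter.Frequently.of_forall fun j X => ?_
    refine (Set.countable_singleton (0 : 𝟙_ C ⟶ X)).mono ?_
    exact fun x hx => inDisc_eq_zero hG h hx
  · intro h
    exact (indep_iff_rigid hG hD hK hS r).2
      (h.mono fun j hj => rigid_of_countable (O := InDisc G dim r) hD hB hj)

/-- **The criterion for one variety.** The space `F^k CH^i(X)` is independent if, for some `m`, the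
families of order `m + 1` in the discrepancies of the products of `X` with `m + 1` curves are countable,
in codimension `i + m + 1` and level `k + m + 1`. -/
theorem indep_of_ext (hG : Kunneth G dim) (hD : ∀ i, (D i).Laws G)
    (hK : ∀ i, CurveCK G dim (D i)) (hB : ∀ i, (D i).Baire) (hS : Separated D) (X : C) (i m : ℕ)
    (k : ℤ) (h : ∀ L : List ι, L.length = m + 1 → ∀ f : pw D L ⟶ ext D X L,
      (∀ z ∈ diffs D L, z ≫ f ∈ disc G dim (ext D X L) (i + (m + 1)) (k + (m + 1))) →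
        {y | ∃ z ∈ diffs D L, y = z ≫ f}.Countable) : Indep G dim X i k := by
  rw [indep_iff hG, Submodule.eq_bot_iff]
  intro x hx
  have hx' : InDisc G dim (i - k) X i x := by
    unfold InDisc
    rwa [sub_sub_cancel]
  refine eq_zero_of_ext hD hB hS (fun l => closed_inDisc hG (hD l) (hK l) (i - k)) (m := m)
    (fun L hL f hf => h L hL f fun z hz => ?_) hx'
  have h5 := hf z hz
  unfold InDisc at h5
  have h6 : (((i + (m + 1) : ℕ) : ℤ) - (i - k)) = k + (m + 1) := by push_cast; ring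
  rwa [h6] at h5

/-- **Thin discrepancies.** -/
theorem indep_iff_thin (hG : Kunneth G dim) (hD : ∀ i, (D i).Laws G)
    (hK : ∀ i, CurveCK G dim (D i)) (hB : ∀ i, (D i).Baire) (hS : Separated D) (r : ℤ) :
    (∀ X (i : ℕ) (k : ℤ), (i : ℤ) - k ≤ r → Indep G dim X i k) ↔
      ∃ᶠ j : ℕ in atTop, ∃ m, Thin D (InDisc G dim r) (m + 1) (j + (m + 1)) := by
  constructor
  · intro h
    refine Filter.Frequently.of_forall fun j => ⟨0, fun L _ X f hf => ?_⟩
    refine (Set.countable_singleton (0 : 𝟙_ C ⟶ X)).mono ?_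
    rintro _ ⟨z, hz, rfl⟩
    exact inDisc_eq_zero hG h (hf z hz)
  · intro h
    exact indep_of hG hD hK hS
      (eq_zero_of_thin hD hB hS (fun i => closed_inDisc hG (hD i) (hK i) r) h)

/-- The question for all levels. -/
theorem indep_all_iff (hG : Kunneth G dim) (hD : ∀ i, (D i).Laws G)
    (hK : ∀ i, CurveCK G dim (D i)) (hB : ∀ i, (D i).Baire) (hS : Separated D) :
    (∀ X (i : ℕ) (k : ℤ), Indep G dim X i k) ↔
      ∃ᶠ r : ℤ in atTop, ∃ᶠ j : ℕ in atTop,
        ∃ m, Thin D (InDisc G dim r) (m + 1) (j + (m + 1)) := by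
  constructor
  · intro h
    exact Filter.Frequently.of_forall fun r =>
      (indep_iff_thin hG hD hK hB hS r).1 fun X i k _ => h X i k
  · intro h X i k
    obtain ⟨r, hr, h1⟩ := Filter.frequently_atTop.1 h (i - k)
    exact (indep_iff_thin hG hD hK hB hS r).2 h1 X i k hr

end Pool.Agent.H23CK
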