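import Pool.Agent.H23CK.Prod

/-!
# The discrepancy of the Chow-Künneth filtrations and products with curves
-/

set_option autoImplicit false
set_option linter.unusedSectionVars false

open CategoryTheory MonoidalCategory Module Filter
open Pool.Agent.Y112.SR Pool.Agent.Y112.KD Pool.Agent.N64.AF Pool.Agent.H23NC Pool.Agent.H23OB
open Pool.Agent.H23CT

namespace Pool.Agent.H23CK

universe v u w t

variable {C : Type u} [Category.{v} C] [Preadditive C] [MonoidalCategory C]
  [MonoidalPreadditive C] [SymmetricCategory C] [Linear ℚ C] [MonoidalLinear ℚ C]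
  {K : Type w} [Field K] [Algebra ℚ K] {R : SuperRealisation C K} {G : Cycles R} {dim : C → ℕ}

lemma psum_deg {X : C} {π : ℕ → (X ⟶ X)} (h : IsCK G dim X π) (l : ℤ) :
    psum π l ∈ G.deg X X 0 := Submodule.sum_mem _ fun i _ => h.deg i

lemma psum_idem {X : C} {π : ℕ → (X ⟶ X)} (h : IsCK G dim X π) (l : ℤ) :
    psum π l ≫ psum π l = psum π l := by
  unfold psum
  rw [Preadditive.sum_comp]
  refine Finset.sum_congr rfl fun i hi => ?_
  rw [Preadditive.comp_sum, Finset.sum_eq_single i]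
  · exact h.idem i
  · intro j _ hj
    exact h.orth i j (Ne.symm hj)
  · exact fun h => absurd hi h

lemma mem_ckFil {X : C} {π : ℕ → (X ⟶ X)} {i : ℕ} {k : ℤ} {x : 𝟙_ C ⟶ X} :
    x ∈ ckFil G π i k ↔ ∃ z ∈ G.deg (𝟙_ C) X i, z ≫ psum π (2 * i - k) = x := by
  unfold ckFil
  rw [Submodule.mem_map]
  rfl

lemma ckFil_le_deg (hG : Kunneth G dim) {X : C} {π : ℕ → (X ⟶ X)} (h : IsCK G dim X π) (i : ℕ)
    (k : ℤ) : ckFil G π i k ≤ G.deg (𝟙_ C) X i := by
  intro x hx
  obtain ⟨z, hz, rfl⟩ := mem_ckFil.1 hx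
  have := hG.comp _ _ _ _ _ _ _ hz (psum_deg h (2 * i - k))
  simpa using this

/-- The space `F^k CH^i(X)` is independent if and only if the discrepancy vanishes. -/
lemma indep_iff (hG : Kunneth G dim) (X : C) (i : ℕ) (k : ℤ) :
    Indep G dim X i k ↔ disc G dim X i k = ⊥ := by
  constructor
  · intro h
    unfold disc
    rw [Submodule.span_eq_bot]
    rintro y ⟨π, π', x, hπ, hπ', hx, rfl⟩
    rw [h π π' hπ hπ'] at hx
    obtain ⟨z, _, rfl⟩ := mem_ckFil.1 hx
    rw [Category.assoc, psum_idem hπ', sub_self]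
  · intro h
    have h1 : ∀ π π' : ℕ → (X ⟶ X), IsCK G dim X π → IsCK G dim X π' →
        ckFil G π i k ≤ ckFil G π' i k := by
      intro π π' hπ hπ' x hx
      have h2 : x - x ≫ psum π' (2 * i - k) ∈ disc G dim X i k :=
        Submodule.subset_span ⟨π, π', x, hπ, hπ', hx, rfl⟩
      rw [h, Submodule.mem_bot, sub_eq_zero] at h2
      exact mem_ckFil.2 ⟨x, ckFil_le_deg hG hπ i k hx, h2.symm⟩
    exact fun π π' hπ hπ' => le_antisymm (h1 π π' hπ hπ') (h1 π' π hπ' hπ)

lemma times_tensor {X Y E E' : C} (s : 𝟙_ C ⟶ E) (f : X ⟶ Y) (g : E ⟶ E') :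
    times X s ≫ (f ⊗ₘ g) = f ≫ times Y (s ≫ g) := by
  unfold times
  rw [tensorHom_def', Category.assoc, ← whiskerLeft_comp_assoc, whisker_exchange,
    rightUnitor_inv_naturality_assoc]

lemma times_zero {X E : C} : times X (0 : 𝟙_ C ⟶ E) = 0 := by
  unfold times
  rw [MonoidalPreadditive.whiskerLeft_zero, Limits.comp_zero]

lemma times_sub {X E : C} (s t : 𝟙_ C ⟶ E) : times X (s - t) = times X s - times X t := by
  unfold times
  rw [← Preadditive.comp_sub]
  congr 1
  rw [sub_eq_add_neg, sub_eq_add_neg, MonoidalPreadditive.whiskerLeft_add,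
    ← neg_one_smul ℚ t, MonoidalLinear.whiskerLeft_smul, neg_one_smul]

/-- The components of the product with a class `s` in the component `b` of `E`. -/
lemma times_ckProd {X E : C} {π : ℕ → (X ⟶ X)} {ρ : ℕ → (E ⟶ E)} (hρ : IsCK G dim E ρ) {b : ℕ}
    {s : 𝟙_ C ⟶ E} (hs : s ≫ ρ b = s) (m : ℕ) :
    times X s ≫ ckProd π ρ m = if b ≤ m then π (m - b) ≫ times X s else 0 := by
  have h1 : ∀ c, c ≠ b → s ≫ ρ c = 0 := by
    intro c hc
    rw [← hs, Category.assoc, hρ.orth b c (Ne.symm hc), Limits.comp_zero]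
  unfold ckProd
  rw [Preadditive.comp_sum]
  split_ifs with hbm
  · rw [Finset.sum_eq_single (m - b, b)]
    · rw [times_tensor, hs]
    · rintro ⟨a', b'⟩ hab hne
      rw [Finset.HasAntidiagonal.mem_antidiagonal] at hab
      simp only at hab ⊢
      have hb : b' ≠ b := by
        rintro rfl
        apply hne
        rw [← hab, Nat.add_sub_cancel]
      rw [times_tensor, h1 b' hb, times_zero, Limits.comp_zero]
    · intro h
      exact absurd (Finset.HasAntidiagonal.mem_antidiagonal.2 (Nat.sub_add_cancel hbm)) h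
  · refine Finset.sum_eq_zero ?_
    rintro ⟨a', b'⟩ hab
    rw [Finset.HasAntidiagonal.mem_antidiagonal] at hab
    simp only at hab ⊢
    rw [times_tensor, h1 b' (by omega), times_zero, Limits.comp_zero]

lemma times_psum {X E : C} {π : ℕ → (X ⟶ X)} {ρ : ℕ → (E ⟶ E)} (hρ : IsCK G dim E ρ) {b : ℕ}
    {s : 𝟙_ C ⟶ E} (hs : s ≫ ρ b = s) (l : ℤ) :
    times X s ≫ psum (ckProd π ρ) (l + b) = psum π l ≫ times X s := by
  unfold psum
  rw [Preadditive.comp_sum, Preadditive.sum_comp]
  simp only [times_ckProd hρ hs]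
  rcases lt_or_ge (l + 1) 0 with hl | hl
  · have h1 : (l + 1).toNat = 0 := by omega
    rw [h1, Finset.range_zero, Finset.sum_empty]
    refine Finset.sum_eq_zero fun m hm => ?_
    rw [Finset.mem_range] at hm
    rw [if_neg (by omega)]
  · obtain ⟨n, hn⟩ := Int.eq_ofNat_of_zero_le hl
    have h1 : (l + 1).toNat = n := by omega
    have h2 : (l + b + 1).toNat = b + n := by omega
    rw [h1, h2, Finset.sum_range_add]
    have h3 : ∑ x ∈ Finset.range b, (if b ≤ x then π (x - b) ≫ times X s else 0) = 0 := by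
      refine Finset.sum_eq_zero fun m hm => ?_
      rw [Finset.mem_range] at hm
      rw [if_neg (by omega)]
    rw [h3, zero_add]
    refine Finset.sum_congr rfl fun m _ => ?_
    rw [if_pos (by omega), Nat.add_sub_cancel_left]

/-- The products with a class in the component `b` map the discrepancy of `X` to the discrepancy of
the product. -/
lemma disc_times (hG : Kunneth G dim) {X E : C} {ρ : ℕ → (E ⟶ E)} (hρ : IsCK G dim E ρ) {b : ℕ}
    {s : 𝟙_ C ⟶ E} (hs : s ≫ ρ b = s) (hd : times X s ∈ G.deg X (X ⊗ E) 1) {i : ℕ} {k : ℤ}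
    {x : 𝟙_ C ⟶ X} (hx : x ∈ disc G dim X i k) :
    x ≫ times X s ∈ disc G dim (X ⊗ E) (i + 1) (k + 2 - b) := by
  unfold disc at hx
  induction hx using Submodule.span_induction with
  | mem y h =>
    obtain ⟨π, π', x, hπ, hπ', hx, rfl⟩ := h
    refine Submodule.subset_span ⟨ckProd π ρ, ckProd π' ρ, x ≫ times X s, isCK_prod hG hπ hρ,
      isCK_prod hG hπ' hρ, ?_, ?_⟩
    · obtain ⟨z, hz, rfl⟩ := mem_ckFil.1 hx
      refine mem_ckFil.2 ⟨z ≫ times X s, ?_, ?_⟩
      · have := hG.comp _ _ _ _ _ _ _ hz hd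
        push_cast
        exact this
      · have h1 : (2 * ((i + 1 : ℕ) : ℤ) - (k + 2 - b)) = (2 * i - k) + b := by push_cast; ring
        rw [h1, Category.assoc, times_psum hρ hs, Category.assoc]
    · have h1 : (2 * ((i + 1 : ℕ) : ℤ) - (k + 2 - b)) = (2 * i - k) + b := by push_cast; ring
      rw [h1, Category.assoc, times_psum hρ hs, Preadditive.sub_comp, Category.assoc]
  | zero => rw [Limits.zero_comp]; exact Submodule.zero_mem _
  | add a b _ _ ha hb => rw [Preadditive.add_comp]; exact Submodule.add_mem _ ha hb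
  | smul c a _ ha => rw [Linear.smul_comp]; exact Submodule.smul_mem _ c ha

end Pool.Agent.H23CK
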