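import Pool.Agent.H23CK.Defs

/-!
# Products of Chow-Künneth decompositions
-/

set_option autoImplicit false
set_option linter.unusedSectionVars false

open CategoryTheory MonoidalCategory Module
open Pool.Agent.Y112.SR Pool.Agent.Y112.KD Pool.Agent.N64.AF Pool.Agent.H23NC Pool.Agent.H23OB
open Pool.Agent.H23CT

namespace Pool.Agent.H23CK

universe v u w t

variable {C : Type u} [Category.{v} C] [Preadditive C] [MonoidalCategory C]
  [MonoidalPreadditive C] [SymmetricCategory C] [Linear ℚ C] [MonoidalLinear ℚ C]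
  {K : Type w} [Field K] [Algebra ℚ K] {R : SuperRealisation C K} {G : Cycles R} {dim : C → ℕ}

/-- The product of two decompositions. -/
def ckProd {X Y : C} (π : ℕ → (X ⟶ X)) (ρ : ℕ → (Y ⟶ Y)) (m : ℕ) : X ⊗ Y ⟶ X ⊗ Y :=
  ∑ ab ∈ Finset.HasAntidiagonal.antidiagonal m, (π ab.1 ⊗ₘ ρ ab.2)

lemma tensor_sum {X X' Y Y' : C} {ι : Type*} (f : X ⟶ X') (s : Finset ι) (g : ι → (Y ⟶ Y')) :
    (f ⊗ₘ (∑ i ∈ s, g i)) = ∑ i ∈ s, (f ⊗ₘ g i) := by
  classical
  induction s using Finset.induction_on with
  | empty => simp [MonoidalPreadditive.tensor_zero]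
  | insert a s ha ih => rw [Finset.sum_insert ha, Finset.sum_insert ha,
      MonoidalPreadditive.tensor_add, ih]

lemma sum_tensor' {X X' Y Y' : C} {ι : Type*} (g : Y ⟶ Y') (s : Finset ι) (f : ι → (X ⟶ X')) :
    ((∑ i ∈ s, f i) ⊗ₘ g) = ∑ i ∈ s, (f i ⊗ₘ g) := by
  classical
  induction s using Finset.induction_on with
  | empty => simp [MonoidalPreadditive.zero_tensor]
  | insert a s ha ih => rw [Finset.sum_insert ha, Finset.sum_insert ha,
      MonoidalPreadditive.add_tensor, ih]

lemma comp_ck {X : C} {π : ℕ → (X ⟶ X)} (h : IsCK G dim X π) (i j : ℕ) :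
    π i ≫ π j = if i = j then π i else 0 := by
  split_ifs with hij
  · rw [← hij]; exact h.idem i
  · exact h.orth i j hij

lemma act_tensor {X X' Y Y' : C} (f : X ⟶ X') (g : Y ⟶ Y') (a : R.H.obj X) (b : R.H.obj Y) :
    Cycles.act (f ⊗ₘ g) ((Functor.LaxMonoidal.μ R.H X Y).hom (a ⊗ₜ[K] b)) =
      (Functor.LaxMonoidal.μ R.H X' Y').hom (Cycles.act f a ⊗ₜ[K] Cycles.act g b) := by
  have h := Functor.LaxMonoidal.μ_natural R.H f g
  have h2 := congrArg (fun t => t.hom (a ⊗ₜ[K] b)) h
  exact h2.symm

lemma act_sum {X Y : C} {ι : Type*} (s : Finset ι) (f : ι → (X ⟶ Y)) (a : R.H.obj X) :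
    Cycles.act (∑ i ∈ s, f i) a = ∑ i ∈ s, Cycles.act (f i) a := by
  classical
  induction s using Finset.induction_on with
  | empty =>
    simp only [Finset.sum_empty, Cycles.act]
    rw [R.H.map_zero]
    rfl
  | insert i s hi ih =>
    rw [Finset.sum_insert hi, Finset.sum_insert hi, ← ih]
    simp only [Cycles.act]
    rw [R.H.map_add]
    rfl

lemma eq_zero_of_neg {X : C} {π : ℕ → (X ⟶ X)} (h : IsCK G dim X π) {j : ℤ} (hj : j < 0)
    {a : R.H.obj X} (ha : a ∈ G.coh X j) : a = 0 := by
  have h1 : Cycles.act (𝟙 X) a = a := by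
    simp only [Cycles.act]
    rw [R.H.map_id]
    rfl
  rw [← h1, ← h.sum, act_sum]
  refine Finset.sum_eq_zero fun i _ => h.kill i j a ?_ ha
  omega

/-- The product of two Chow-Künneth decompositions is a Chow-Künneth decomposition. -/
theorem isCK_prod (hG : Kunneth G dim) {X Y : C} {π : ℕ → (X ⟶ X)} {ρ : ℕ → (Y ⟶ Y)}
    (hπ : IsCK G dim X π) (hρ : IsCK G dim Y ρ) : IsCK G dim (X ⊗ Y) (ckProd π ρ) := by
  have hcomp : ∀ m n, ckProd π ρ m ≫ ckProd π ρ n = if m = n then ckProd π ρ m else 0 := by
    intro m n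
    unfold ckProd
    rw [Preadditive.sum_comp]
    simp only [Preadditive.comp_sum, MonoidalCategory.tensorHom_comp_tensorHom, comp_ck hπ,
      comp_ck hρ]
    have h1 : ∀ ab ∈ Finset.HasAntidiagonal.antidiagonal m,
        (∑ cd ∈ Finset.HasAntidiagonal.antidiagonal n, ((if ab.1 = cd.1 then π ab.1 else 0) ⊗ₘ
          (if ab.2 = cd.2 then ρ ab.2 else 0) : X ⊗ Y ⟶ X ⊗ Y)) =
            if m = n then (π ab.1 ⊗ₘ ρ ab.2) else 0 := by
      rintro ⟨a, b⟩ hab
      rw [Finset.HasAntidiagonal.mem_antidiagonal] at hab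
      simp only at hab ⊢
      split_ifs with hmn
      · subst hmn
        rw [Finset.sum_eq_single (a, b)]
        · simp
        · rintro ⟨c, d⟩ hcd hne
          rw [Finset.HasAntidiagonal.mem_antidiagonal] at hcd
          by_cases hac : a = c
          · have : b ≠ d := fun hbd => hne (by rw [hac, hbd])
            simp [this, MonoidalPreadditive.tensor_zero]
          · simp [hac, MonoidalPreadditive.zero_tensor]
        · intro h
          exact absurd (Finset.HasAntidiagonal.mem_antidiagonal.2 hab) h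
      · refine Finset.sum_eq_zero ?_
        rintro ⟨c, d⟩ hcd
        rw [Finset.HasAntidiagonal.mem_antidiagonal] at hcd
        simp only at hcd
        by_cases hac : a = c
        · have : b ≠ d := fun hbd => hmn (by omega)
          simp [this, MonoidalPreadditive.tensor_zero]
        · simp [hac, MonoidalPreadditive.zero_tensor]
    rw [Finset.sum_congr rfl h1]
    split_ifs with hmn
    · rfl
    · simp
  refine ⟨fun i => ?_, fun i => by rw [hcomp, if_pos rfl], fun i j hij => by
    rw [hcomp, if_neg hij], fun i hi => ?_, ?_, ?_, ?_⟩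
  · refine Submodule.sum_mem _ fun ab _ => ?_
    have := hG.deg_tensor X X Y Y 0 0 _ _ (hπ.deg ab.1) (hρ.deg ab.2)
    simpa using this
  · rw [hG.dim_tensor] at hi
    refine Finset.sum_eq_zero ?_
    rintro ⟨a, b⟩ hab
    rw [Finset.HasAntidiagonal.mem_antidiagonal] at hab
    simp only at hab ⊢
    rcases lt_or_ge (2 * dim X) a with ha | ha
    · rw [hπ.zero a ha, MonoidalPreadditive.zero_tensor]
    · rw [hρ.zero b (by omega), MonoidalPreadditive.tensor_zero]
  · rw [hG.dim_tensor]
    have h1 : 𝟙 (X ⊗ Y) = ∑ ab ∈ Finset.range (2 * dim X + 1) ×ˢ Finset.range (2 * dim Y + 1),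
        (π ab.1 ⊗ₘ ρ ab.2) := by
      rw [Finset.sum_product]
      simp only
      have h2 : ∀ a ∈ Finset.range (2 * dim X + 1), (∑ b ∈ Finset.range (2 * dim Y + 1),
          (π a ⊗ₘ ρ b)) = (π a ⊗ₘ 𝟙 Y) := by
        intro a _
        rw [← tensor_sum, hρ.sum]
      rw [Finset.sum_congr rfl h2, ← sum_tensor', hπ.sum, MonoidalCategory.id_tensorHom_id]
    rw [h1]
    unfold ckProd
    rw [Finset.sum_sigma']
    symm
    refine Finset.sum_bij_ne_zero (fun ab _ _ => ⟨ab.1 + ab.2, ab⟩) ?_ ?_ ?_ ?_
    · rintro ⟨a, b⟩ h _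
      rw [Finset.mem_product, Finset.mem_range, Finset.mem_range] at h
      rw [Finset.mem_sigma, Finset.mem_range, Finset.HasAntidiagonal.mem_antidiagonal]
      simp only at h ⊢
      constructor
      · omega
      · trivial
    · rintro ⟨a, b⟩ _ _ ⟨c, d⟩ _ _ h
      simp only [Sigma.mk.injEq, heq_eq_eq] at h
      exact h.2
    · rintro ⟨m, a, b⟩ h hne
      rw [Finset.mem_sigma, Finset.mem_range, Finset.HasAntidiagonal.mem_antidiagonal] at h
      simp only at h hne
      refine ⟨(a, b), ?_, hne, ?_⟩
      · rw [Finset.mem_product, Finset.mem_range, Finset.mem_range]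
        simp only
        constructor
        · by_contra hcon
          exact hne (by rw [hπ.zero a (by omega), MonoidalPreadditive.zero_tensor])
        · by_contra hcon
          exact hne (by rw [hρ.zero b (by omega), MonoidalPreadditive.tensor_zero])
      · obtain ⟨_, rfl⟩ := h
        rfl
    · rintro ⟨a, b⟩ _ _
      rfl
  · intro m c hc
    have h1 := hG.coh_tensor X Y m hc
    clear hc
    induction h1 using Submodule.span_induction with
    | mem c h =>
      obtain ⟨i, j, a, b, hij, ha, hb, rfl⟩ := h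
      unfold ckProd
      rw [act_sum]
      rcases lt_or_ge i 0 with hi | hi
      · rw [eq_zero_of_neg hπ hi ha]
        simp only [TensorProduct.zero_tmul, map_zero]
        refine Finset.sum_eq_zero fun ab _ => ?_
        simp [Cycles.act]
      rcases lt_or_ge j 0 with hj | hj
      · rw [eq_zero_of_neg hρ hj hb]
        simp only [TensorProduct.tmul_zero, map_zero]
        refine Finset.sum_eq_zero fun ab _ => ?_
        simp [Cycles.act]
      obtain ⟨i, rfl⟩ := Int.eq_ofNat_of_zero_le hi
      obtain ⟨j, rfl⟩ := Int.eq_ofNat_of_zero_le hj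
      have hij' : i + j = m := by exact_mod_cast hij
      rw [Finset.sum_eq_single (i, j)]
      · rw [act_tensor, hπ.id i a ha, hρ.id j b hb]
      · rintro ⟨a', b'⟩ hab hne
        rw [Finset.HasAntidiagonal.mem_antidiagonal] at hab
        simp only at hab ⊢
        rw [act_tensor]
        by_cases hia : i = a'
        · have hjb : (j : ℤ) ≠ (b' : ℕ) := by
            intro h
            apply hne
            rw [hia]
            have : j = b' := by exact_mod_cast h
            rw [this]
          rw [hρ.kill b' j b hjb hb, TensorProduct.tmul_zero, map_zero]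
        · have hia' : (i : ℤ) ≠ (a' : ℕ) := by exact_mod_cast hia
          rw [hπ.kill a' i a hia' ha, TensorProduct.zero_tmul, map_zero]
      · intro h
        exact absurd (Finset.HasAntidiagonal.mem_antidiagonal.2 hij') h
    | zero => simp [Cycles.act]
    | add x y _ _ hx hy =>
      have : Cycles.act (ckProd π ρ m) (x + y) =
          Cycles.act (ckProd π ρ m) x + Cycles.act (ckProd π ρ m) y := by simp [Cycles.act]
      rw [this, hx, hy]
    | smul r x _ hx =>
      have : Cycles.act (ckProd π ρ m) (r • x) = r • Cycles.act (ckProd π ρ m) x := by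
        simp [Cycles.act]
      rw [this, hx]
  · intro m n c hnm hc
    have h1 := hG.coh_tensor X Y n hc
    clear hc
    induction h1 using Submodule.span_induction with
    | mem c h =>
      obtain ⟨i, j, a, b, hij, ha, hb, rfl⟩ := h
      unfold ckProd
      rw [act_sum]
      refine Finset.sum_eq_zero ?_
      rintro ⟨a', b'⟩ hab
      rw [Finset.HasAntidiagonal.mem_antidiagonal] at hab
      simp only at hab ⊢
      rw [act_tensor]
      by_cases hia : i = (a' : ℕ)
      · have hjb : j ≠ (b' : ℕ) := by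
          intro h
          apply hnm
          omega
        rw [hρ.kill b' j b hjb hb, TensorProduct.tmul_zero, map_zero]
      · rw [hπ.kill a' i a hia ha, TensorProduct.zero_tmul, map_zero]
    | zero => simp [Cycles.act]
    | add x y _ _ hx hy =>
      have : Cycles.act (ckProd π ρ m) (x + y) =
          Cycles.act (ckProd π ρ m) x + Cycles.act (ckProd π ρ m) y := by simp [Cycles.act]
      rw [this, hx, hy, add_zero]
    | smul r x _ hx =>
      have : Cycles.act (ckProd π ρ m) (r • x) = r • Cycles.act (ckProd π ρ m) x := by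
        simp [Cycles.act]
      rw [this, hx, smul_zero]

end Pool.Agent.H23CK
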